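import Pool.Agent.W237.RK.Defs
import Pool.Agent.H58R.Loc

set_option autoImplicit false

namespace Pool.Agent.W402.RK

open Pool.Agent.W237.RK
open Pool.Agent.H58P (Qb ht)
open Pool.Agent.H58B (ht_pow)
open Pool.Agent.H58R

lemma rep {G : Type*} [CommGroup G] (S : Finset G) {g : G}
    (hg : g ∈ Subgroup.closure (S : Set G)) : ∃ a : G → ℤ, g = ∏ i ∈ S, i ^ a i := by
  classical
  induction hg using Subgroup.closure_induction with
  | mem x hx =>
    refine ⟨Pi.single x 1, ?_⟩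
    rw [Finset.prod_eq_single x]
    · simp
    · intro b _ hb
      rw [Pi.single_eq_of_ne hb, zpow_zero]
    · intro h; exact absurd hx h
  | one => exact ⟨0, by simp⟩
  | mul x y _ _ hx hy =>
    obtain ⟨a, ha⟩ := hx
    obtain ⟨b, hb⟩ := hy
    refine ⟨a + b, ?_⟩
    rw [ha, hb, ← Finset.prod_mul_distrib]
    exact Finset.prod_congr rfl (fun i _ => by rw [Pi.add_apply, zpow_add])
  | inv x _ hx =>
    obtain ⟨a, ha⟩ := hx
    refine ⟨-a, ?_⟩
    rw [ha, ← Finset.prod_inv_distrib]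
    exact Finset.prod_congr rfl (fun i _ => by rw [Pi.neg_apply, zpow_neg])

/-- simultaneous approximation -/
lemma dirichlet {ι : Type*} (S : Finset ι) (T N : ℕ) (hT : 0 < T) (hN : 0 < N) (a : ι → ℤ) :
    ∃ l : ℕ, 0 < l ∧ l ≤ T ^ S.card ∧ ∃ b : ι → ℤ, ∀ i ∈ S, |l * a i - N * b i| * T < N := by
  classical
  have hN' : (0 : ℤ) < N := by exact_mod_cast hN
  have hT' : (0 : ℤ) < T := by exact_mod_cast hT
  let f : ℕ → (S → Fin T) := fun j i =>
    ⟨((j * a i % N) * T / N).toNat, by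
      have h1 := Int.emod_nonneg (j * a i) hN'.ne'
      have h2 := Int.emod_lt_of_pos (j * a i) hN'
      have h3 : (j * a i % N) * T / N < T := by
        rw [Int.ediv_lt_iff_lt_mul hN']
        nlinarith
      have h4 : 0 ≤ (j * a i % N) * T / N := Int.ediv_nonneg (mul_nonneg h1 hT'.le) hN'.le
      omega⟩
  obtain ⟨j₁, h₁, j₂, h₂, hne, hf⟩ := Finset.exists_ne_map_eq_of_card_lt_of_maps_to
    (s := Finset.range (T ^ S.card + 1)) (t := (Finset.univ : Finset (S → Fin T)))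
    (by rw [Finset.card_univ, Fintype.card_fun, Fintype.card_fin, Fintype.card_coe,
          Finset.card_range]; exact Nat.lt_succ_self _)
    (f := f) (fun _ _ => Finset.mem_coe.mpr (Finset.mem_univ _))
  wlog hlt : j₁ < j₂ generalizing j₁ j₂
  · exact this j₂ h₂ j₁ h₁ hne.symm hf.symm (by omega)
  rw [Finset.mem_range] at h₁ h₂
  refine ⟨j₂ - j₁, by omega, by omega, fun i => (j₂ * a i) / N - (j₁ * a i) / N, ?_⟩
  intro i hi
  have h3 := congrArg Fin.val (congrFun hf ⟨i, hi⟩)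
  simp only [f] at h3
  have r1 := Int.emod_nonneg (j₁ * a i) hN'.ne'
  have r2 := Int.emod_nonneg (j₂ * a i) hN'.ne'
  have q1 : 0 ≤ (j₁ * a i % N) * T / N := Int.ediv_nonneg (mul_nonneg r1 hT'.le) hN'.le
  have q2 : 0 ≤ (j₂ * a i % N) * T / N := Int.ediv_nonneg (mul_nonneg r2 hT'.le) hN'.le
  have h4 : (j₁ * a i % N) * T / N = (j₂ * a i % N) * T / N := by omega
  have e1 := Int.emod_add_mul_ediv (j₁ * a i % N * T) N
  have e2 := Int.emod_add_mul_ediv (j₂ * a i % N * T) N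
  have b1 := Int.emod_nonneg (j₁ * a i % N * T) hN'.ne'
  have b2 := Int.emod_nonneg (j₂ * a i % N * T) hN'.ne'
  have b3 := Int.emod_lt_of_pos (j₁ * a i % N * T) hN'
  have b4 := Int.emod_lt_of_pos (j₂ * a i % N * T) hN'
  have d1 := Int.emod_add_mul_ediv (j₁ * a i) N
  have d2 := Int.emod_add_mul_ediv (j₂ * a i) N
  have e3 : ((j₂ - j₁ : ℕ) : ℤ) = j₂ - j₁ := by
    rw [Nat.cast_sub hlt.le]
  have e4 : ((j₂ - j₁ : ℕ) : ℤ) * a i - N * ((j₂ * a i) / N - (j₁ * a i) / N) =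
      j₂ * a i % N - j₁ * a i % N := by
    rw [e3]; linear_combination d1 - d2
  rw [e4, ← abs_of_pos hT', ← abs_mul, abs_lt, sub_mul]
  rw [h4] at e1
  constructor <;> linarith

lemma tor_pow {z : Qb} (h : Tor z) (n : ℕ) : Tor (z ^ n) := by
  obtain ⟨k, hk, hz⟩ := h
  exact ⟨k, hk, by rw [← pow_mul, mul_comm, pow_mul, hz, one_pow]⟩

lemma ht_prod_zpow (S : Finset Qbˣ) (m : Qbˣ → ℤ) :
    ht (∏ i ∈ S, (i : Qb) ^ m i) ≤ ∑ i ∈ S, |(m i : ℝ)| * ht (i : Qb) := by
  refine (ht_prod_le S _).trans (Finset.sum_le_sum ?_)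
  intro i _
  rw [ht_zpow _ i.ne_zero]

theorem fin : S_BOG → S_FIN := by
  classical
  intro hB K Γ hK hΓ hΓK
  obtain ⟨c, hc, hBog⟩ := hB K hK 1
  obtain ⟨S, hS⟩ := hΓ
  set H : ℝ := ∑ i ∈ S, ht (i : Qb) with hH
  have hH0 : 0 ≤ H := Finset.sum_nonneg (fun i _ => ht_nonneg _)
  obtain ⟨T₀, hT₀⟩ := exists_nat_gt (H / c)
  set T := T₀ + 1 with hT
  have hTpos : 0 < T := Nat.succ_pos _
  have hTc : H < c * T := by
    rw [div_lt_iff₀ hc] at hT₀
    rw [hT]; push_cast; nlinarith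
  have hSΓ : ∀ i ∈ S, i ∈ Γ := fun i hi => by rw [← hS]; exact Subgroup.subset_closure hi
  refine ⟨(T ^ S.card).factorial, Nat.factorial_pos _, ?_⟩
  rintro y hyK hy0 ⟨N, hN, g, hg, hyN⟩
  rw [← hS] at hg
  obtain ⟨a, ha⟩ := rep S hg
  obtain ⟨l, hl0, hlT, b, hb⟩ := dirichlet S T N hTpos hN a
  set u : Qbˣ := Units.mk0 y hy0 with hu
  have huN : u ^ N = g := Units.ext (by rw [Units.val_pow_eq_pow_val]; exact hyN)
  set γ : Qbˣ := ∏ i ∈ S, i ^ b i with hγ
  have hγΓ : γ ∈ Γ := Subgroup.prod_mem _ (fun i hi => Subgroup.zpow_mem _ (hSΓ i hi) _)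
  set z : Qbˣ := u ^ l * γ⁻¹ with hz
  have hzN : z ^ N = ∏ i ∈ S, i ^ (l * a i - N * b i) := by
    rw [hz, mul_pow, ← pow_mul, mul_comm l N, pow_mul, huN, ha, hγ, inv_pow,
      ← Finset.prod_pow, ← Finset.prod_pow, ← Finset.prod_inv_distrib, ← Finset.prod_mul_distrib]
    apply Finset.prod_congr rfl
    intro i _
    rw [← zpow_natCast, ← zpow_natCast, ← zpow_mul, ← zpow_mul, ← zpow_neg, ← zpow_add]
    congr 1
    ring
  have hzKi : (z : Qb) ∈ kinf K := by
    have h1 : (γ : Qb) ∈ kinf K := (le_sup_left : K ≤ kinf K) (hΓK γ hγΓ)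
    rw [hz, Units.val_mul, Units.val_pow_eq_pow_val, Units.val_inv_eq_inv_val]
    exact mul_mem (pow_mem hyK l) (inv_mem h1)
  have horb : (orb (kinf K) (z : Qb)).ncard ≤ 1 := by
    have : orb (kinf K) (z : Qb) ⊆ {(z : Qb)} := by
      rintro x ⟨σ, hσ, rfl⟩
      exact hσ _ hzKi
    exact (Set.ncard_le_ncard this (Set.finite_singleton _)).trans (by simp)
  have hTor : Tor (z : Qb) := by
    by_contra hcon
    have h1 := hBog z z.ne_zero horb hcon
    have h2 : (N : ℝ) * ht (z : Qb) ≤ ∑ i ∈ S, |((l * a i - N * b i : ℤ) : ℝ)| * ht (i : Qb) := by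
      rw [← ht_pow, ← Units.val_pow_eq_pow_val, hzN, Units.coe_prod]
      simp only [Units.val_zpow_eq_zpow_val]
      exact ht_prod_zpow S (fun i => l * a i - N * b i)
    have hT0 : (0 : ℝ) < T := by exact_mod_cast hTpos
    have h3 : ∑ i ∈ S, |((l * a i - N * b i : ℤ) : ℝ)| * ht (i : Qb) ≤ (N / T) * H := by
      rw [hH, Finset.mul_sum]
      apply Finset.sum_le_sum
      intro i hi
      apply mul_le_mul_of_nonneg_right _ (ht_nonneg _)
      rw [le_div_iff₀ hT0]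
      have := (hb i hi).le
      have h4 : ((|l * a i - N * b i| * T : ℤ) : ℝ) ≤ ((N : ℤ) : ℝ) := by exact_mod_cast this
      push_cast at h4 ⊢
      exact h4
    have hN0 : (0 : ℝ) < N := by exact_mod_cast hN
    have h5 : (N : ℝ) * ht (z : Qb) < N * c := by
      calc (N : ℝ) * ht (z : Qb) ≤ (N / T) * H := h2.trans h3
        _ = N * (H / T) := by ring
        _ < N * c := by
          apply mul_lt_mul_of_pos_left _ hN0
          rwa [div_lt_iff₀ hT0]
    have h6 := lt_of_mul_lt_mul_left h5 hN0.le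
    linarith
  obtain ⟨e', he'⟩ := Nat.dvd_factorial hl0 hlT
  refine ⟨γ ^ e', Subgroup.pow_mem _ hγΓ _, (z : Qb) ^ e', tor_pow hTor e', ?_⟩
  have h7 : (y : Qb) ^ l = z * γ := by
    have : u ^ l = z * γ := by rw [hz, inv_mul_cancel_right]
    have h8 := congrArg (Units.val) this
    rw [Units.val_pow_eq_pow_val, Units.val_mul] at h8
    exact h8
  rw [he', pow_mul, h7, mul_pow, Units.val_pow_eq_pow_val]

end Pool.Agent.W402.RK
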