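import Pool.Agent.W237.RK.Defs

set_option autoImplicit false

namespace Pool.Agent.W402.RK.KD

open Pool.Agent.W237.RK
open Pool.Agent.H58P (Qb ht)

instance : IsGalois ℚ Qb := by
  have : IsAlgClosure ℚ Qb := ⟨inferInstance, AlgebraicClosure.isAlgebraic ℚ⟩
  exact IsAlgClosure.isGalois ℚ Qb

lemma mem_of_fixed (L : GF) (x : Qb) (h : ∀ τ : Aut, Fix L τ → τ x = x) : x ∈ L := by
  have h1 := InfiniteGalois.fixedField_fixingSubgroup L
  rw [← h1, IntermediateField.mem_fixedField_iff]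
  intro σ hσ
  rw [IntermediateField.mem_fixingSubgroup_iff] at hσ
  exact h σ hσ

/-- units of `Qb` in `L` -/
def LU (L : GF) : Subgroup Qbˣ where
  carrier := {u | (u : Qb) ∈ L}
  one_mem' := by simp
  mul_mem' := by
    intro a b ha hb
    simp only [Set.mem_ofPred_eq, Units.val_mul] at *
    exact mul_mem ha hb
  inv_mem' := by
    intro a ha
    simp only [Set.mem_ofPred_eq, Units.val_inv_eq_inv_val] at *
    exact inv_mem ha

lemma mem_LU {L : GF} {u : Qbˣ} : u ∈ LU L ↔ (u : Qb) ∈ L := Iff.rfl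

/-- `u ↦ τ u / u` -/
noncomputable def ch (τ : Aut) : Qbˣ →* Qbˣ where
  toFun u := Units.map (τ : Qb →* Qb) u * u⁻¹
  map_one' := by simp
  map_mul' := by
    intro a b
    rw [map_mul, mul_inv]
    exact mul_mul_mul_comm _ _ _ _

lemma ch_val (τ : Aut) (u : Qbˣ) : (ch τ u : Qb) = τ u * (u : Qb)⁻¹ := by
  simp [ch]

lemma ch_mul_self (τ : Aut) (u : Qbˣ) : (ch τ u : Qb) * u = τ u := by
  rw [ch_val, inv_mul_cancel_right₀ u.ne_zero]

section

variable {L : GF} {N : ℕ} {S : Subgroup Qbˣ}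

/-- the quotient -/
abbrev AA (L : GF) (S : Subgroup Qbˣ) : Type := S ⧸ (LU L).subgroupOf S

lemma AA_finite (hT : ∃ T : Finset Qbˣ, ∀ y ∈ S, ∃ t ∈ T, ((y / t : Qbˣ) : Qb) ∈ L) :
    Finite (AA L S) := by
  obtain ⟨T, hT⟩ := hT
  choose! f hf using hT
  let F : AA L S → T := fun a => ⟨f (a.out : S), (hf _ (a.out : S).2).1⟩
  apply Finite.of_injective F
  intro a b hab
  have h1 : f (a.out : S) = f (b.out : S) := congrArg Subtype.val hab
  have ha := (hf _ (a.out : S).2).2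
  have hb := (hf _ (b.out : S).2).2
  rw [← h1] at hb
  rw [← QuotientGroup.out_eq' a, ← QuotientGroup.out_eq' b]
  rw [QuotientGroup.eq, Subgroup.mem_subgroupOf]
  have h2 : ((a.out : S) / f (a.out : S) : Qbˣ) ∈ LU L := ha
  have h3 : ((b.out : S) / f (a.out : S) : Qbˣ) ∈ LU L := hb
  have h4 := (LU L).mul_mem ((LU L).inv_mem h2) h3
  have h5 : ((a.out : S) / f (a.out : S) : Qbˣ)⁻¹ * ((b.out : S) / f (a.out : S) : Qbˣ) =
      (((a.out)⁻¹ * b.out : S) : Qbˣ) := by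
    simp only [Subgroup.coe_mul, InvMemClass.coe_inv]
    rw [inv_div, mul_comm, div_mul_div_cancel, div_eq_mul_inv, mul_comm]
  rw [h5] at h4
  exact h4

/-- the character of the quotient -/
noncomputable def cA (τ : Aut) (hτ : Fix L τ) : AA L S →* Qbˣ :=
  QuotientGroup.lift _ ((ch τ).comp S.subtype) (by
    intro x hx
    rw [Subgroup.mem_subgroupOf] at hx
    apply Units.ext
    change (ch τ (x : Qbˣ) : Qb) = 1
    rw [ch_val, hτ _ hx, mul_inv_cancel₀ (x : Qbˣ).ne_zero])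

lemma cA_mk (τ : Aut) (hτ : Fix L τ) (y : S) :
    cA (S := S) τ hτ (QuotientGroup.mk y) = ch τ (y : Qbˣ) := rfl

lemma ch_pow (hS : ∀ y ∈ S, (y : Qb) ^ N ∈ L) (τ : Aut) (hτ : Fix L τ) (y : S) :
    (ch τ (y : Qbˣ) : Qb) ^ N = 1 := by
  rw [ch_val, mul_pow, ← map_pow, hτ _ (hS y y.2), inv_pow,
    mul_inv_cancel₀ (pow_ne_zero _ (y : Qbˣ).ne_zero)]

lemma Fix_mul {τ τ' : Aut} (h : Fix L τ) (h' : Fix L τ') : Fix L (τ * τ') := by
  intro x hx
  change τ (τ' x) = x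
  rw [h' x hx, h x hx]

lemma Fix_inv {τ : Aut} (h : Fix L τ) : Fix L τ⁻¹ := by
  intro x hx
  change τ.symm x = x
  rw [AlgEquiv.symm_apply_eq, h x hx]

lemma Fix_one : Fix L (1 : Aut) := fun _ _ => rfl

lemma ch_mul (hμ : ∀ x : Qb, x ^ N = 1 → x ∈ L) (hS : ∀ y ∈ S, (y : Qb) ^ N ∈ L)
    {τ τ' : Aut} (h : Fix L τ) (h' : Fix L τ') (y : S) :
    ch (τ * τ') (y : Qbˣ) = ch τ (y : Qbˣ) * ch τ' (y : Qbˣ) := by
  apply Units.ext
  have h1 : (τ * τ') ((y : Qbˣ) : Qb) = τ (τ' ((y : Qbˣ) : Qb)) := rfl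
  have h2 : τ (ch τ' (y : Qbˣ) : Qb) = ch τ' (y : Qbˣ) := h _ (hμ _ (ch_pow hS τ' h' y))
  rw [Units.val_mul, ch_val, h1, ← ch_mul_self τ' (y : Qbˣ), map_mul, h2,
    ← ch_mul_self τ (y : Qbˣ)]
  field_simp

/-- the subgroup of the characters coming from Galois -/
def HH (hμ : ∀ x : Qb, x ^ N = 1 → x ∈ L) (hS : ∀ y ∈ S, (y : Qb) ^ N ∈ L) :
    Subgroup (AA L S →* Qbˣ) where
  carrier := {ψ | ∃ (τ : Aut) (hτ : Fix L τ), cA (S := S) τ hτ = ψ}
  one_mem' := by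
    refine ⟨1, Fix_one, ?_⟩
    apply MonoidHom.ext
    intro a
    induction a using QuotientGroup.induction_on with
    | H y =>
      rw [cA_mk]
      apply Units.ext
      rw [ch_val]
      change ((y : Qbˣ) : Qb) * ((y : Qbˣ) : Qb)⁻¹ = 1
      rw [mul_inv_cancel₀ (y : Qbˣ).ne_zero]
  mul_mem' := by
    rintro _ _ ⟨τ, hτ, rfl⟩ ⟨τ', hτ', rfl⟩
    refine ⟨τ * τ', Fix_mul hτ hτ', ?_⟩
    apply MonoidHom.ext
    intro a
    induction a using QuotientGroup.induction_on with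
    | H y => rw [MonoidHom.mul_apply, cA_mk, cA_mk, cA_mk, ch_mul hμ hS hτ hτ']
  inv_mem' := by
    rintro _ ⟨τ, hτ, rfl⟩
    refine ⟨τ⁻¹, Fix_inv hτ, ?_⟩
    apply MonoidHom.ext
    intro a
    induction a using QuotientGroup.induction_on with
    | H y =>
      rw [MonoidHom.inv_apply, cA_mk, cA_mk, eq_inv_iff_mul_eq_one,
        ← ch_mul hμ hS (Fix_inv hτ) hτ, inv_mul_cancel]
      apply Units.ext
      rw [ch_val]
      change ((y : Qbˣ) : Qb) * ((y : Qbˣ) : Qb)⁻¹ = 1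
      rw [mul_inv_cancel₀ (y : Qbˣ).ne_zero]

lemma HH_top (hμ : ∀ x : Qb, x ^ N = 1 → x ∈ L) (hS : ∀ y ∈ S, (y : Qb) ^ N ∈ L)
    [Finite (AA L S)] (ψ : AA L S →* Qbˣ) : ψ ∈ HH hμ hS := by
  have h0 : NeZero (Monoid.exponent (AA L S)) := ⟨Monoid.exponent_ne_zero_of_finite (G := AA L S)⟩
  have h1 : HasEnoughRootsOfUnity Qb (Monoid.exponent (AA L S)) := by
    unfold Qb; infer_instance
  have h2 : HasEnoughRootsOfUnity Qb (Monoid.exponent (AA L S →* Qbˣ)) := by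
    rwa [Monoid.exponent_eq_of_mulEquiv
      (CommGroup.monoidHom_mulEquiv_of_hasEnoughRootsOfUnity (AA L S) Qb).some]
  rw [← CommGroup.forall_monoidHom_apply_eq_one_iff Qb (HH hμ hS) ψ]
  intro φ hφ
  set a := CommGroup.monoidHomMonoidHomEquiv (AA L S) Qb φ with ha
  have hev : ∀ η : AA L S →* Qbˣ, η a = φ η := fun η => by
    rw [ha]
    exact CommGroup.apply_monoidHomMonoidHomEquiv (G := AA L S) (M := Qb) η φ
  have ha1 : a = 1 := by
    obtain ⟨y, hy⟩ := QuotientGroup.mk_surjective a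
    rw [← hy, QuotientGroup.eq_one_iff, Subgroup.mem_subgroupOf]
    apply mem_of_fixed L
    intro τ hτ
    have h3 := hφ (cA (S := S) τ hτ) ⟨τ, hτ, rfl⟩
    rw [← hev, ← hy, cA_mk] at h3
    have h4 := ch_mul_self τ (y : Qbˣ)
    rw [h3, Units.val_one, one_mul] at h4
    exact h4.symm
  rw [← hev, ha1, map_one]

end

theorem kda : S_KDA := by
  intro L N S hN hμ hS hT θ hθ hθL
  have := AA_finite hT
  let θA : AA L S →* Qbˣ := QuotientGroup.lift _ θ (by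
    intro x hx
    exact hθL x hx)
  obtain ⟨τ, hτ, h⟩ := HH_top hμ hS θA
  refine ⟨τ, hτ, fun y => ?_⟩
  have h1 : ch τ (y : Qbˣ) = θ y := DFunLike.congr_fun h (QuotientGroup.mk y)
  rw [← h1, ch_mul_self]

theorem kdb : S_KDB := by
  intro L N S hN hμ hS hT c hc hcN hc1
  have := AA_finite hT
  have h0 : NeZero (Monoid.exponent (AA L S)) := ⟨Monoid.exponent_ne_zero_of_finite (G := AA L S)⟩
  have h1 : HasEnoughRootsOfUnity Qb (Monoid.exponent (AA L S)) := by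
    unfold Qb; infer_instance
  have hwd : ∀ τ τ' : Aut, Fix L τ → Fix L τ' → (∀ y : S, ch τ (y : Qbˣ) = ch τ' (y : Qbˣ)) →
      c τ = c τ' := by
    intro τ τ' hτ hτ' h
    have h2 : c (τ⁻¹ * τ') = 1 := by
      apply hc1 _ (Fix_mul (Fix_inv hτ) hτ')
      intro y hy
      change τ.symm (τ' (y : Qb)) = y
      rw [AlgEquiv.symm_apply_eq, ← ch_mul_self τ' y, ← ch_mul_self τ y, h ⟨y, hy⟩]
    have h3 := hc τ (τ⁻¹ * τ') hτ (Fix_mul (Fix_inv hτ) hτ')
    rw [mul_inv_cancel_left, h2, mul_one] at h3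
    exact h3.symm
  have hex : ∀ ψ : AA L S →* Qbˣ, ∃ (τ : Aut) (hτ : Fix L τ), cA (S := S) τ hτ = ψ :=
    fun ψ => HH_top hμ hS ψ
  choose t ht htψ using hex
  have hne : ∀ τ : Aut, Fix L τ → c τ ≠ 0 := by
    intro τ hτ h
    have := hcN τ hτ
    rw [h, zero_pow hN.ne'] at this
    exact zero_ne_one this
  have hct : ∀ (τ : Aut) (hτ : Fix L τ), c τ = c (t (cA (S := S) τ hτ)) := by
    intro τ hτ
    apply hwd _ _ hτ (ht _)
    intro y
    have := DFunLike.congr_fun (htψ (cA (S := S) τ hτ)) (QuotientGroup.mk y)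
    exact this.symm
  let φ : (AA L S →* Qbˣ) →* Qbˣ := MonoidHom.mk'
    (fun ψ => Units.mk0 (c (t ψ)) (hne _ (ht ψ))) (by
      intro ψ ψ'
      apply Units.ext
      change c (t (ψ * ψ')) = c (t ψ) * c (t ψ')
      rw [← hc _ _ (ht ψ) (ht ψ')]
      apply hwd _ _ (ht _) (Fix_mul (ht _) (ht _))
      intro y
      rw [ch_mul hμ hS (ht ψ) (ht ψ')]
      have e1 := DFunLike.congr_fun (htψ (ψ * ψ')) (QuotientGroup.mk y)
      have e2 := DFunLike.congr_fun (htψ ψ) (QuotientGroup.mk y)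
      have e3 := DFunLike.congr_fun (htψ ψ') (QuotientGroup.mk y)
      rw [cA_mk] at e1 e2 e3
      rw [e1, e2, e3]; rfl)
  set a := CommGroup.monoidHomMonoidHomEquiv (AA L S) Qb φ with ha
  have hev : ∀ η : AA L S →* Qbˣ, η a = φ η := fun η => by
    rw [ha]
    exact CommGroup.apply_monoidHomMonoidHomEquiv (G := AA L S) (M := Qb) η φ
  obtain ⟨y, hy⟩ := QuotientGroup.mk_surjective a
  refine ⟨(y : Qbˣ), y.2, fun τ hτ => ?_⟩
  have h2 := hev (cA (S := S) τ hτ)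
  rw [← hy, cA_mk] at h2
  rw [← ch_mul_self τ (y : Qbˣ), h2]
  change c (t (cA (S := S) τ hτ)) * _ = _
  rw [← hct τ hτ]

theorem kd : S_KDA ∧ S_KDB := ⟨kda, kdb⟩

end Pool.Agent.W402.RK.KD

namespace Pool.Agent.W402.RK

theorem kd : Pool.Agent.W237.RK.S_KDA ∧ Pool.Agent.W237.RK.S_KDB := KD.kd

end Pool.Agent.W402.RK
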