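import Pool.Agent.W237.RK.Defs

set_option autoImplicit false

namespace Pool.Agent.W402.RK

open Pool.Agent.W237.RK
open Pool.Agent.H58P (Qb ht)

section

variable {p : ℕ} [hp : Fact p.Prime]

lemma norm_natCast_le (n : ℕ) : ‖(n : PadicAlgCl p)‖ ≤ 1 := by
  rw [← map_natCast (algebraMap ℚ_[p] (PadicAlgCl p)), PadicAlgCl.norm_extends]
  exact_mod_cast Padic.norm_int_le_one (n : ℤ)

lemma sub_le_max (X Y : PadicAlgCl p) : ‖X - Y‖ ≤ max ‖X‖ ‖Y‖ := by
  have := IsUltrametricDist.norm_add_le_max X (-Y)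
  rwa [norm_neg, ← sub_eq_add_neg] at this

lemma sub_eq_max {X Y : PadicAlgCl p} (h : ‖X‖ ≠ ‖Y‖) : ‖X - Y‖ = max ‖X‖ ‖Y‖ := by
  have := IsUltrametricDist.norm_add_eq_max_of_norm_ne_norm (x := X) (y := -Y)
    (by rwa [norm_neg])
  rwa [norm_neg, ← sub_eq_add_neg] at this

lemma norm_p : ‖(p : PadicAlgCl p)‖ = (p : ℝ)⁻¹ := by
  rw [← map_natCast (algebraMap ℚ_[p] (PadicAlgCl p)), PadicAlgCl.norm_extends, Padic.norm_p]

lemma p_pos : (0 : ℝ) < p := by exact_mod_cast hp.out.pos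

lemma two_le_p : (2 : ℝ) ≤ p := by exact_mod_cast hp.out.two_le

lemma step {X Y : PadicAlgCl p} (hX : ‖X‖ ≤ 1) (hY : ‖Y‖ ≤ 1) :
    ‖X ^ p - Y ^ p‖ ≤ max (‖X - Y‖ * (p : ℝ)⁻¹) (‖X - Y‖ ^ 2) := by
  set w := X - Y with hw
  have hw1 : ‖w‖ ≤ 1 := by
    rw [hw]
    exact (sub_le_max _ _).trans (max_le hX hY)
  have e : X ^ p - Y ^ p = ∑ m ∈ Finset.range p, w ^ (m + 1) * Y ^ (p - (m + 1)) *
      (p.choose (m + 1) : PadicAlgCl p) := by
    have hX' : X = w + Y := by rw [hw]; ring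
    rw [hX', add_pow, Finset.sum_range_succ']
    simp
  rw [e]
  apply IsUltrametricDist.norm_sum_le_of_forall_le_of_nonneg (le_max_of_le_left (by positivity))
  intro m hm
  rw [Finset.mem_range] at hm
  rw [norm_mul, norm_mul, norm_pow, norm_pow]
  have h1 : ‖Y‖ ^ (p - (m + 1)) ≤ 1 := pow_le_one₀ (norm_nonneg _) hY
  by_cases h : m + 1 = p
  · apply le_max_of_le_right
    have h2 : ‖w‖ ^ (m + 1) ≤ ‖w‖ ^ 2 :=
      pow_le_pow_of_le_one (norm_nonneg _) hw1 (by rw [h]; exact hp.out.two_le)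
    calc ‖w‖ ^ (m + 1) * ‖Y‖ ^ (p - (m + 1)) * ‖(p.choose (m + 1) : PadicAlgCl p)‖
        ≤ ‖w‖ ^ 2 * 1 * 1 := by
          gcongr
          exact norm_natCast_le _
      _ = ‖w‖ ^ 2 := by ring
  · apply le_max_of_le_left
    obtain ⟨c, hc⟩ := hp.out.dvd_choose_self (Nat.succ_ne_zero m) (by omega)
    have h3 : ‖(p.choose (m + 1) : PadicAlgCl p)‖ ≤ (p : ℝ)⁻¹ := by
      rw [hc, Nat.cast_mul, norm_mul, norm_p]
      have := norm_natCast_le (p := p) c
      have hp0 : (0 : ℝ) ≤ (p : ℝ)⁻¹ := by positivity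
      nlinarith
    have h4 : ‖w‖ ^ (m + 1) ≤ ‖w‖ := by
      calc ‖w‖ ^ (m + 1) ≤ ‖w‖ ^ 1 := pow_le_pow_of_le_one (norm_nonneg _) hw1 (by omega)
        _ = ‖w‖ := pow_one _
    calc ‖w‖ ^ (m + 1) * ‖Y‖ ^ (p - (m + 1)) * ‖(p.choose (m + 1) : PadicAlgCl p)‖
        ≤ ‖w‖ * 1 * (p : ℝ)⁻¹ := by gcongr
      _ = ‖w‖ * (p : ℝ)⁻¹ := by ring

lemma core (B : ℕ) {X Y : PadicAlgCl p} (hX : ‖X‖ ≤ 1) (hY : ‖Y‖ ≤ 1)
    (h : ‖X - Y‖ ^ B ≤ (p : ℝ)⁻¹) (k : ℕ) :
    ‖X ^ (p ^ k) - Y ^ (p ^ k)‖ * (p : ℝ) ^ k ≤ (p : ℝ) ^ B := by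
  have hp0 := p_pos (p := p)
  have hp2 := two_le_p (p := p)
  have hinv : (0 : ℝ) < (p : ℝ)⁻¹ := by positivity
  have hinv1 : (p : ℝ)⁻¹ < 1 := inv_lt_one_of_one_lt₀ (by linarith)
  set d : ℕ → ℝ := fun j => ‖X ^ (p ^ j) - Y ^ (p ^ j)‖ with hd
  have hd0 : ∀ j, 0 ≤ d j := fun j => norm_nonneg _
  have hXj : ∀ j, ‖X ^ (p ^ j)‖ ≤ 1 := fun j => by
    rw [norm_pow]; exact pow_le_one₀ (norm_nonneg _) hX
  have hYj : ∀ j, ‖Y ^ (p ^ j)‖ ≤ 1 := fun j => by
    rw [norm_pow]; exact pow_le_one₀ (norm_nonneg _) hY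
  have hd1 : ∀ j, d j ≤ 1 := fun j =>
    (sub_le_max _ _).trans (max_le (hXj j) (hYj j))
  have hstep : ∀ j, d (j + 1) ≤ max (d j * (p : ℝ)⁻¹) (d j ^ 2) := by
    intro j
    have := step (hXj j) (hYj j)
    simp only [hd]
    rw [pow_succ, pow_mul, pow_mul]
    exact this
  have hB : B ≠ 0 := by
    rintro rfl
    rw [pow_zero] at h
    linarith
  have claim : ∀ j, d j ≤ (p : ℝ)⁻¹ ∨ d j ^ B ≤ ((p : ℝ)⁻¹) ^ (j + 1) := by
    intro j
    induction j with
    | zero =>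
      right
      simp only [hd, pow_zero, pow_one, zero_add]
      exact h
    | succ j ih =>
      have hs := hstep j
      by_cases hle : d j ≤ (p : ℝ)⁻¹
      · left
        refine hs.trans (max_le ?_ ?_)
        · nlinarith [hd0 j, hd1 j]
        · nlinarith [hd0 j, hd1 j]
      · have ih' := ih.resolve_left hle
        push Not at hle
        right
        have h1 : d (j + 1) ≤ d j ^ 2 := by
          refine hs.trans (max_le ?_ le_rfl)
          nlinarith [hd0 j]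
        calc d (j + 1) ^ B ≤ (d j ^ 2) ^ B := pow_le_pow_left₀ (hd0 _) h1 _
          _ = (d j ^ B) ^ 2 := by rw [← pow_mul, ← pow_mul, mul_comm]
          _ ≤ (((p : ℝ)⁻¹) ^ (j + 1)) ^ 2 := pow_le_pow_left₀ (by positivity) ih' _
          _ = ((p : ℝ)⁻¹) ^ ((j + 1) * 2) := by rw [← pow_mul]
          _ ≤ ((p : ℝ)⁻¹) ^ (j + 1 + 1) := pow_le_pow_of_le_one hinv.le hinv1.le (by omega)
  have hdB : d B ≤ (p : ℝ)⁻¹ := by
    rcases claim B with h1 | h1
    · exact h1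
    · by_contra hcon
      push Not at hcon
      have h2 : ((p : ℝ)⁻¹) ^ B < d B ^ B := pow_lt_pow_left₀ hcon hinv.le hB
      have h3 : ((p : ℝ)⁻¹) ^ (B + 1) ≤ ((p : ℝ)⁻¹) ^ B :=
        pow_le_pow_of_le_one hinv.le hinv1.le (by omega)
      linarith
  have hdi : ∀ i, d (B + i) ≤ ((p : ℝ)⁻¹) ^ (i + 1) := by
    intro i
    induction i with
    | zero => simpa using hdB
    | succ i ih =>
      have hs := hstep (B + i)
      have h1 : d (B + i) ≤ (p : ℝ)⁻¹ := by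
        refine ih.trans ?_
        calc ((p : ℝ)⁻¹) ^ (i + 1) ≤ ((p : ℝ)⁻¹) ^ 1 :=
              pow_le_pow_of_le_one hinv.le hinv1.le (by omega)
          _ = _ := pow_one _
      have h2 : d (B + i + 1) ≤ d (B + i) * (p : ℝ)⁻¹ := by
        refine hs.trans (max_le le_rfl ?_)
        nlinarith [hd0 (B + i)]
      calc d (B + (i + 1)) = d (B + i + 1) := rfl
        _ ≤ d (B + i) * (p : ℝ)⁻¹ := h2
        _ ≤ ((p : ℝ)⁻¹) ^ (i + 1) * (p : ℝ)⁻¹ := mul_le_mul_of_nonneg_right ih hinv.le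
        _ = ((p : ℝ)⁻¹) ^ (i + 1 + 1) := (pow_succ _ _).symm
  change d k * (p : ℝ) ^ k ≤ (p : ℝ) ^ B
  rcases le_total k B with hk | hk
  · calc d k * (p : ℝ) ^ k ≤ 1 * (p : ℝ) ^ k := by
          apply mul_le_mul_of_nonneg_right (hd1 k) (by positivity)
      _ = (p : ℝ) ^ k := one_mul _
      _ ≤ (p : ℝ) ^ B := pow_le_pow_right₀ (by linarith) hk
  · obtain ⟨i, rfl⟩ := Nat.exists_eq_add_of_le hk
    calc d (B + i) * (p : ℝ) ^ (B + i) ≤ ((p : ℝ)⁻¹) ^ (i + 1) * (p : ℝ) ^ (B + i) := by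
          apply mul_le_mul_of_nonneg_right (hdi i) (by positivity)
      _ ≤ ((p : ℝ)⁻¹) ^ i * (p : ℝ) ^ (B + i) := by
          apply mul_le_mul_of_nonneg_right _ (by positivity)
          exact pow_le_pow_of_le_one hinv.le hinv1.le (by omega)
      _ = (p : ℝ) ^ B := by
          rw [pow_add, inv_pow]
          field_simp

end

theorem pow : S_POW := by
  intro p hp B
  refine ⟨B, fun k => ⟨?_, ?_⟩⟩
  · intro y hy
    have hp2 := two_le_p (p := p)
    have hB : B ≠ 0 := by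
      rintro rfl
      rw [pow_zero] at hy
      have : (p : ℝ)⁻¹ < 1 := inv_lt_one_of_one_lt₀ (by linarith)
      linarith
    have h1 : ‖y - 1‖ ≤ 1 := by
      by_contra hcon
      push Not at hcon
      have h2 := one_le_pow₀ hcon.le (n := B)
      have : (p : ℝ)⁻¹ < 1 := inv_lt_one_of_one_lt₀ (by linarith)
      linarith
    have h2 : ‖y‖ ≤ 1 := by
      have : y = (y - 1) + 1 := by ring
      rw [this]
      exact (IsUltrametricDist.norm_add_le_max _ _).trans (max_le h1 (by simp))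
    have := core B h2 (Y := 1) (by simp) hy k
    simpa using this
  · intro x y hxy
    have hp2 := two_le_p (p := p)
    have hinv0 : (0 : ℝ) < (p : ℝ)⁻¹ := by positivity
    have hinv : (p : ℝ)⁻¹ < 1 := inv_lt_one_of_one_lt₀ (by linarith)
    set N := max 1 ‖x‖ * max 1 ‖y‖ with hN
    have hN1 : 1 ≤ N := one_le_mul_of_one_le_of_one_le (le_max_left _ _) (le_max_left _ _)
    have hlt : ‖x - y‖ < N := by
      by_contra hcon
      push Not at hcon
      have h2 : N ^ B ≤ ‖x - y‖ ^ B := pow_le_pow_left₀ (by linarith) hcon _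
      have h3 : 0 < N ^ B := by positivity
      nlinarith
    by_cases hx : ‖x‖ ≤ 1
    · by_cases hy : ‖y‖ ≤ 1
      · have hNe : N = 1 := by rw [hN, max_eq_left hx, max_eq_left hy, one_mul]
        rw [hNe] at hxy ⊢
        rw [one_pow, mul_one] at hxy ⊢
        exact core B hx hy hxy k
      · exfalso
        push Not at hy
        have h1 : N = ‖y‖ := by rw [hN, max_eq_left hx, max_eq_right hy.le, one_mul]
        have h2 : ‖x - y‖ = ‖y‖ := by
          rw [sub_eq_max (by linarith),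
            max_eq_right (by linarith)]
        linarith
    · push Not at hx
      by_cases hy : ‖y‖ ≤ 1
      · exfalso
        have h1 : N = ‖x‖ := by rw [hN, max_eq_right hx.le, max_eq_left hy, mul_one]
        have h2 : ‖x - y‖ = ‖x‖ := by
          rw [sub_eq_max (by linarith),
            max_eq_left (by linarith)]
        linarith
      · push Not at hy
        have h1 : N = ‖x‖ * ‖y‖ := by rw [hN, max_eq_right hx.le, max_eq_right hy.le]
        have hx0 : x ≠ 0 := by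
          rintro rfl; rw [norm_zero] at hx; linarith
        have hy0 : y ≠ 0 := by
          rintro rfl; rw [norm_zero] at hy; linarith
        have e1 : ‖x⁻¹ - y⁻¹‖ = ‖x - y‖ / N := by
          have : x⁻¹ - y⁻¹ = -((x - y) / (x * y)) := by field_simp; ring
          rw [this, norm_neg, norm_div, norm_mul, h1]
        have h3 : ‖x⁻¹ - y⁻¹‖ ^ B ≤ (p : ℝ)⁻¹ := by
          rw [e1, div_pow, div_le_iff₀ (by positivity)]
          exact hxy
        have hxi : ‖x⁻¹‖ ≤ 1 := by rw [norm_inv]; exact inv_le_one_of_one_le₀ hx.le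
        have hyi : ‖y⁻¹‖ ≤ 1 := by rw [norm_inv]; exact inv_le_one_of_one_le₀ hy.le
        have h4 := core B hxi hyi h3 k
        have e2 : ‖x ^ (p ^ k) - y ^ (p ^ k)‖ =
            ‖(x⁻¹) ^ (p ^ k) - (y⁻¹) ^ (p ^ k)‖ * N ^ (p ^ k) := by
          have : x ^ (p ^ k) - y ^ (p ^ k) =
              -(((x⁻¹) ^ (p ^ k) - (y⁻¹) ^ (p ^ k)) * (x * y) ^ (p ^ k)) := by
            rw [inv_pow, inv_pow, mul_pow]
            have a1 : x ^ (p ^ k) ≠ 0 := pow_ne_zero _ hx0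
            have a2 : y ^ (p ^ k) ≠ 0 := pow_ne_zero _ hy0
            field_simp
            ring
          rw [this, norm_neg, norm_mul, norm_pow, norm_mul, h1]
        rw [e2]
        calc _ = (‖(x⁻¹) ^ (p ^ k) - (y⁻¹) ^ (p ^ k)‖ * (p : ℝ) ^ k) * N ^ (p ^ k) := by ring
          _ ≤ _ := mul_le_mul_of_nonneg_right h4 (by positivity)

end Pool.Agent.W402.RK
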